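import Pool.Agent.H625R3.PC3

set_option autoImplicit false

/-!
# Variational sets of `(n - 1)`-dimensional permutation cubes of order `n`

`π_{q-1}(q)` for every prime power `q ≥ 4`, and upper bounds for `π_{n-1}(n)` for all `n ≥ 3`.
-/

open Pool.Agent.H430R2.PermCubes

namespace Pool.Agent.Results.MP_c7a479_co.DimensionNMinusOne

/-- For every `n ≥ 3` a variational set of `(n - 1)`-dimensional permutation cubes of order `n` has
at most `n + p - 1` members for every prime `p` dividing `n - 1`, and at most `n + 2` members if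
`n ≡ 2 mod 3`; and for prime powers `q ≥ 4` the largest size of a variational set of
`(q - 1)`-dimensional permutation cubes of order `q` is `q + 1` if `q` is odd and `q + 2` if `q` is
even. -/
theorem result :
    (∀ n k : ℕ, 3 ≤ n → ∀ C : Fin k → (Fin (n - 1) → Fin n) → Fin n,
      IsVariationalSet (n - 1) n k C →
        (∀ p : ℕ, p.Prime → p ∣ n - 1 → k ≤ n + p - 1) ∧ (n % 3 = 2 → k ≤ n + 2)) ∧
    (∀ q : ℕ, IsPrimePow q → 4 ≤ q →
      IsPi (q - 1) q (if q % 2 = 1 then q + 1 else q + 2)) := by
  refine ⟨?_, ?_⟩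
  · intro n k hn C hC
    exact Pool.Agent.H625R3.PC.upper (n := n) hC.2 (by omega) hn
  · intro q hq h4
    exact Pool.Agent.H625R3.PC.isPi_dual hq h4 (by omega)

end Pool.Agent.Results.MP_c7a479_co.DimensionNMinusOne
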