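import Pool.Agent.H625R3.PC5
import Pool.Agent.H625R3.PC6

set_option autoImplicit false

/-!
# Variational sets of `(n - 2)`-dimensional permutation cubes of even order `n`

`π_{q-2}(q) = q + 1` for every power `q ≥ 8` of two, `π_{n-2}(n) ≤ n + 1` for every even `n`
not divisible by three, and `π_{n-2}(n) ≤ n + p - 2` for every even `n` and every prime factor `p`
of `n - 1`.
-/

open Pool.Agent.H430R2.PermCubes

namespace Pool.Agent.Results.MP_c7a479_co.DimensionNMinusTwo

/-- (i) For every power `q ≥ 8` of two the largest size of a variational set of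
`(q - 2)`-dimensional permutation cubes of order `q` is `q + 1`.
(ii) For every even `n ≥ 4` not divisible by three a variational set of `(n - 2)`-dimensional
permutation cubes of order `n` has at most `n + 1` members.
(iii) For every even `n ≥ 4` and every prime factor `p` of `n - 1` a variational set of
`(n - 2)`-dimensional permutation cubes of order `n` has at most `n + p - 2` members. -/
theorem result :
    (∀ r : ℕ, 3 ≤ r → IsPi (2 ^ r - 2) (2 ^ r) (2 ^ r + 1)) ∧
    (∀ n k : ℕ, 4 ≤ n → n % 2 = 0 → n % 3 ≠ 0 →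
      ∀ C : Fin k → (Fin (n - 2) → Fin n) → Fin n,
        IsVariationalSet (n - 2) n k C → k ≤ n + 1) ∧
    (∀ n k : ℕ, 4 ≤ n → n % 2 = 0 → ∀ p : ℕ, p.Prime → p ∣ n - 1 →
      ∀ C : Fin k → (Fin (n - 2) → Fin n) → Fin n,
        IsVariationalSet (n - 2) n k C → k ≤ n + p - 2) := by
  have hmain : ∀ n k : ℕ, 4 ≤ n → n % 2 = 0 → n % 3 ≠ 0 →
      ∀ C : Fin k → (Fin (n - 2) → Fin n) → Fin n,
        IsVariationalSet (n - 2) n k C → k ≤ n + 1 := by
    intro n k h4 h2 h3 C hC
    exact Pool.Agent.H625R3.PC.upper_two (n := n) hC.2 (by omega) h4 h2 h3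
  refine ⟨?_, hmain, ?_⟩
  · intro r hr
    have h8 : 8 ≤ 2 ^ r := by
      calc 8 = 2 ^ 3 := by norm_num
        _ ≤ 2 ^ r := Nat.pow_le_pow_right (by norm_num) hr
    have hq : IsPrimePow (2 ^ r) := ⟨2, r, Nat.prime_two.prime, by omega, rfl⟩
    have h2 : 2 ^ r % 2 = 0 := Nat.mod_eq_zero_of_dvd (dvd_pow_self 2 (by omega))
    have h3 : 2 ^ r % 3 ≠ 0 := by
      intro h3
      have h3' : 3 ∣ 2 := Nat.prime_three.dvd_of_dvd_pow (Nat.dvd_of_mod_eq_zero h3)
      omega
    refine ⟨varOver_primePow hq (by omega) (by omega) (by omega), ?_⟩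
    rintro k ⟨C, hC⟩
    exact hmain (2 ^ r) k (by omega) h2 h3 C hC
  · intro n k h4 h2 p hp hpn C hC
    exact Pool.Agent.H625R3.PC.upper_two_prime (n := n) hC.2 (by omega) h4 h2 hp hpn

end Pool.Agent.Results.MP_c7a479_co.DimensionNMinusTwo
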