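import Pool.Agent.H430R2.PermCubes.Upper
import Pool.Agent.H430R2.PermCubes.Three
import Pool.Agent.H430R2.PermCubes.Two

set_option autoImplicit false

/-!
# The value of `π_3(q)` for every prime power `q`

`π_3(2) = 2`, `π_3(q) = q + 1` for odd prime powers `q` and `π_3(q) = q + 2` for even prime powers
`q ≥ 4`.
-/

open Pool.Agent.H430R2.PermCubes

/-- For every prime power `q` the largest size of a variational set of three-dimensional
permutation cubes of order `q` is `q + 1` if `q` is odd, `q + 2` if `q ≥ 4` is even, and `2` if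
`q = 2`. -/
theorem Pool.Agent.Results.MP_c7a479_co.DimensionThree.result :
    ∀ q : ℕ, IsPrimePow q →
      IsPi 3 q (if q = 2 then 2 else if q % 2 = 1 then q + 1 else q + 2) := by
  intro q hq
  have hq2 : 2 ≤ q := hq.two_le
  by_cases h2 : q = 2
  · subst h2
    rw [if_pos rfl]
    exact ⟨exists_vacuous 3 2 2 (by norm_num) (by omega),
      fun k ⟨C, hC⟩ => two_le hC (by norm_num)⟩
  · rw [if_neg h2]
    by_cases hodd : q % 2 = 1
    · rw [if_pos hodd]
      refine ⟨three_odd hq hodd, ?_⟩
      rintro k ⟨C, hC⟩
      have := IsArray.le_odd hC.2 le_rfl hq2 hodd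
      omega
    · rw [if_neg hodd]
      refine ⟨three_even hq (by omega) (by omega), ?_⟩
      rintro k ⟨C, hC⟩
      have := IsArray.le_general hC.2 (by norm_num) hq2
      omega
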