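import Pool.Agent.H430R2.PermCubes.Upper
import Pool.Agent.H72R3.VC.Prime

set_option autoImplicit false

/-!
# An upper bound for `π_m(n)`, all `m, n ≥ 2`

`π_m(n) ≤ n + m - 1`, and `π_m(n) ≤ n + m - 2` if some prime `p < m` divides `n - 1`.
-/

open Pool.Agent.H430R2.PermCubes

namespace Pool.Agent.Results.MP_c7a479_co.UpperBound

/-- For all `m, n ≥ 2`, a variational set of `m`-dimensional permutation cubes of order `n` has at
most `n + m - 1` members, and at most `n + m - 2` if a prime smaller than `m` divides `n - 1`. -/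
theorem result : ∀ m n k : ℕ, 2 ≤ m → 2 ≤ n → ∀ C : Fin k → (Fin m → Fin n) → Fin n,
    IsVariationalSet m n k C →
      k ≤ n + m - 1 ∧ ((∃ p : ℕ, p.Prime ∧ p < m ∧ p ∣ n - 1) → k ≤ n + m - 2) := by
  intro m n k hm hn C hC
  refine ⟨IsArray.le_general hC.2 hm hn, ?_⟩
  rintro ⟨p, hp, hpm, hpn⟩
  exact Pool.Agent.H72R3.VC.IsArray.le_prime hC.2 hn hp hpm hpn

end Pool.Agent.Results.MP_c7a479_co.UpperBound
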